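import Pool.Agent.MP_b04567_ag.Rat.PB

namespace Pool.Agent.MP_b04567_ag.Old.RationalCharP

/-- Over an algebraic closure of the field with `p` elements, the image of an injective map from
the projective line to projective 3-space given by four binary forms without common zero is the
common zero set of two nonconstant forms. -/
theorem result (p : ℕ) [Fact p.Prime] (D : ℕ) (hD : 0 < D)
    (a : Fin 4 → MvPolynomial (Fin 2) (AlgebraicClosure (ZMod p)))
    (ha : ∀ i, (a i).IsHomogeneous D)
    (hb : ∀ x : Fin 2 → AlgebraicClosure (ZMod p), (∀ i, MvPolynomial.eval x (a i) = 0) → x = 0)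
    (hi : ∀ (x y : Fin 2 → AlgebraicClosure (ZMod p)) (c : AlgebraicClosure (ZMod p)),
      x ≠ 0 → y ≠ 0 → (∀ i, MvPolynomial.eval x (a i) = c * MvPolynomial.eval y (a i)) →
      ∃ μ : AlgebraicClosure (ZMod p), x = μ • y) :
    ∃ (F G : MvPolynomial (Fin 4) (AlgebraicClosure (ZMod p))) (d e : ℕ), 0 < d ∧ 0 < e ∧
      F ≠ 0 ∧ G ≠ 0 ∧ F.IsHomogeneous d ∧ G.IsHomogeneous e ∧
      ∀ z : Fin 4 → AlgebraicClosure (ZMod p),
        (MvPolynomial.eval z F = 0 ∧ MvPolynomial.eval z G = 0) ↔
          ∃ (c : AlgebraicClosure (ZMod p)) (x : Fin 2 → AlgebraicClosure (ZMod p)),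
            x ≠ 0 ∧ ∀ i, z i = c * MvPolynomial.eval x (a i) :=
  H62q.main p D hD a ha hb hi

end Pool.Agent.MP_b04567_ag.Old.RationalCharP
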